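import Pool.Agent.Y509.AT.Law2

/-!
# Large-disorder localization fails on antitrees of dimension larger than three

On every antitree with `∑ 1 / √s_n < ∞`, for instance with `s_n ≥ c (n + 1) ^ d` for some `d > 2`,
large-disorder localization fails for every single-site distribution whose Stieltjes transform is,
at arbitrarily small energies outside the support, of the order of that of an atom at `0`.
In particular it fails for every distribution with an atom at `0` and a support which is porous at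
`0`, and for some absolutely continuous distributions.
-/

set_option autoImplicit false

open MeasureTheory Filter Topology

namespace Pool.Agent.Results.MP_be97d8_mp.ResonantLaws

open Pool.Agent.H695R3.AT Pool.Agent.Y509.AT

/-- The single-site distributions of the problem: probability measures supported in `[-1, 1]` with
mean `0` and variance in `(0, 1]`. -/
def IsLaw (Pv : Measure ℝ) : Prop :=
  IsProbabilityMeasure Pv ∧ Pv (Set.Icc (-1) 1)ᶜ = 0 ∧ ∫ t, t ∂Pv = 0 ∧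
    0 < ∫ t, t ^ 2 ∂Pv ∧ ∫ t, t ^ 2 ∂Pv ≤ 1

/-- Large-disorder localization for the distribution `Pv` on the antitree `s` (Q1 asserts it for
all of them): for every compact interval `[a, b]`, at large disorder the spectrum is almost surely
pure point in `[a, b]`. -/
def LargeDisorderLocalization (Pv : Measure ℝ) (s : ℕ → ℕ) : Prop :=
  ∀ a b : ℝ, a ≤ b → ∃ lam₀ : ℝ, 0 < lam₀ ∧ ∀ lam : ℝ, lam₀ < lam →
    ∀ᵐ v ∂(Measure.infinitePi fun _ : Vtx s => Pv),
      ∀ H : L2 s →L[ℂ] L2 s, IsAnderson s lam v H → IsPurePointIn H a b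

/-- Antitrees whose shells are positive and grow so fast that `∑ 1 / √s_n < ∞`. -/
def FastGrowth (s : ℕ → ℕ) : Prop :=
  (∀ n, 0 < s n) ∧ Summable fun n => 1 / √(s n : ℝ)

lemma supp_ae {Pv : Measure ℝ} (h : Pv (Set.Icc (-1) 1)ᶜ = 0) : ∀ᵐ t ∂Pv, |t| ≤ 1 := by
  rw [ae_iff]
  refine measure_mono_null (fun t ht => ?_) h
  intro hc
  exact ht (abs_le.2 hc)

lemma acLaw_isLaw : IsLaw acLaw := by
  refine ⟨inferInstance, ?_, acLaw_mean, acLaw_sq_pos, acLaw_sq_le⟩
  have h := acLaw_supp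
  rw [ae_iff] at h
  refine measure_mono_null (fun t ht => ?_) h
  intro hc
  exact ht (abs_le.1 hc)

/-- Polynomial growth of degree larger than `2`. -/
lemma fastGrowth_of_pow {s : ℕ → ℕ} {c d : ℝ} (hc : 0 < c) (hd : 2 < d)
    (h : ∀ n : ℕ, c * ((n : ℝ) + 1) ^ d ≤ s n) : FastGrowth s := by
  have hpos : ∀ n : ℕ, (0 : ℝ) < s n := fun n => lt_of_lt_of_le (by positivity) (h n)
  refine ⟨fun n => by exact_mod_cast hpos n, ?_⟩
  have h1 : Summable fun n : ℕ => 1 / ((n : ℝ)) ^ (d / 2) :=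
    Real.summable_one_div_nat_rpow.2 (by linarith)
  have h2 : Summable fun n : ℕ => 1 / √c * (1 / (((n : ℝ) + 1)) ^ (d / 2)) := by
    have h3 := (summable_nat_add_iff 1).2 h1
    refine (h3.mul_left (1 / √c)).congr fun n => ?_
    push_cast
    rfl
  refine Summable.of_nonneg_of_le (fun n => by positivity) (fun n => ?_) h2
  have h4 : √(c * ((n : ℝ) + 1) ^ d) = √c * ((n : ℝ) + 1) ^ (d / 2) := by
    rw [Real.sqrt_mul hc.le, Real.sqrt_eq_rpow (((n : ℝ) + 1) ^ d), ← Real.rpow_mul (by positivity)]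
    congr 2
    ring
  have h5 : √c * ((n : ℝ) + 1) ^ (d / 2) ≤ √(s n : ℝ) := by
    rw [← h4]
    exact Real.sqrt_le_sqrt (h n)
  have h6 : 0 < √c * ((n : ℝ) + 1) ^ (d / 2) := by positivity
  calc 1 / √(s n : ℝ) ≤ 1 / (√c * ((n : ℝ) + 1) ^ (d / 2)) := one_div_le_one_div_of_le h6 h5
    _ = _ := by rw [one_div_mul_one_div]

lemma not_loc {Pv : Measure ℝ} [IsProbabilityMeasure Pv] {s : ℕ → ℕ} {A B : ℝ} (hAB : A ≤ B)
    (h : ∀ L : ℝ, ∃ lam a b : ℝ, L < lam ∧ A ≤ a ∧ a < b ∧ b ≤ B ∧ NowhereAE s Pv lam a b) :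
    ¬ LargeDisorderLocalization Pv s := by
  intro hloc
  obtain ⟨lam₀, -, h1⟩ := hloc A B hAB
  obtain ⟨lam, a, b, hlam, h2, h3, h4, h5⟩ := h lam₀
  obtain ⟨v, hv1, H, e1, -, e3⟩ := ((h1 lam hlam).and h5).exists
  exact not_pp_mono h2 h4 (e3 a b le_rfl h3 le_rfl) (hv1 H e1)

lemma ac_nowhere {s : ℕ → ℕ} (hs : FastGrowth s) (L : ℝ) :
    ∃ lam a b : ℝ, L < lam ∧ 0 ≤ a ∧ a < b ∧ b ≤ 1 ∧ NowhereAE s acLaw lam a b := by
  obtain ⟨k, hk⟩ := lamk_tendsto L
  have h1 : ((1 : ℝ) / 2) ^ (k + 1) ≤ 1 := pow_le_one₀ (by norm_num) (by norm_num)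
  have h0 : (0 : ℝ) < (1 / 2) ^ (k + 1) := by positivity
  exact ⟨lamk k, (1 / 2) ^ (k + 1) / 2, (1 / 2) ^ (k + 1), hk, by positivity, by linarith, h1,
    cluster2 acLaw_supp (lamk_pos k) h0 h1 (acLaw_cluster k).1 (acLaw_cluster k).2 hs.1 hs.2⟩

/-- **Failure of large-disorder localization on antitrees with `∑ 1 / √s_n < ∞`.**

(1) If the single-site distribution has resonances of strength `κ > 0`, then localization fails:
for arbitrarily large `λ` there is an interval `[a, b] ⊆ [-2κ, 2κ]`, `a < b`, such that almost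
surely no spectral subspace of a subinterval `[c, d]`, `c < d`, is spanned by eigenvectors.
(2) This is so for every distribution with an atom at `0` whose support is porous at `0`.
(3) If the atom `0` of mass `p` is isolated, it holds for all large `λ` in `[p / 2, p]`.
(4) It also holds for some absolutely continuous distribution.
(5) All antitrees with `s_n ≥ c (n + 1) ^ d`, `d > 2`, have the required growth. -/
theorem result :
    (∀ s : ℕ → ℕ, FastGrowth s → ∀ Pv : Measure ℝ, IsLaw Pv → ∀ κ : ℝ, 0 < κ →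
      HasResonances Pv κ → ¬ LargeDisorderLocalization Pv s ∧
        ∀ L : ℝ, ∃ lam a b : ℝ, L < lam ∧ -(2 * κ) ≤ a ∧ a < b ∧ b ≤ 2 * κ ∧
          NowhereAE s Pv lam a b) ∧
    (∀ Pv : Measure ℝ, IsLaw Pv → 0 < Pv.real {0} → PorousAtZero Pv →
      HasResonances Pv (Pv.real {0} / 2) ∧
        ∀ s : ℕ → ℕ, FastGrowth s → ¬ LargeDisorderLocalization Pv s) ∧
    (∀ s : ℕ → ℕ, FastGrowth s → ∀ Pv : Measure ℝ, IsLaw Pv → 0 < Pv.real {0} →
      ∀ r : ℝ, 0 < r → Pv {t | 0 < |t| ∧ |t| < r} = 0 → ∀ lam : ℝ, 16 / r ≤ lam →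
        NowhereAE s Pv lam (Pv.real {0} / 2) (Pv.real {0})) ∧
    (∃ Pv : Measure ℝ, IsLaw Pv ∧ Pv ≪ volume ∧ ∀ s : ℕ → ℕ, FastGrowth s →
      ¬ LargeDisorderLocalization Pv s ∧
        ∀ L : ℝ, ∃ lam a b : ℝ, L < lam ∧ 0 ≤ a ∧ a < b ∧ b ≤ 1 ∧ NowhereAE s Pv lam a b) ∧
    (∀ (s : ℕ → ℕ) (c d : ℝ), 0 < c → 2 < d → (∀ n : ℕ, c * ((n : ℝ) + 1) ^ d ≤ s n) →
      FastGrowth s) := by
  have main : ∀ s : ℕ → ℕ, FastGrowth s → ∀ Pv : Measure ℝ, IsLaw Pv → ∀ κ : ℝ, 0 < κ →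
      HasResonances Pv κ → ¬ LargeDisorderLocalization Pv s ∧
        ∀ L : ℝ, ∃ lam a b : ℝ, L < lam ∧ -(2 * κ) ≤ a ∧ a < b ∧ b ≤ 2 * κ ∧
          NowhereAE s Pv lam a b := by
    intro s hs Pv hPv κ hκ hr
    have := hPv.1
    have h1 := resonances (supp_ae hPv.2.1) hκ hr hs.1 hs.2
    exact ⟨not_loc (by linarith) h1, h1⟩
  refine ⟨main, fun Pv hPv h0 hp => ?_, fun s hs Pv hPv h0 r hr hgap lam hlam => ?_,
    ⟨acLaw, acLaw_isLaw, acLaw_ac, fun s hs => ⟨not_loc zero_le_one (ac_nowhere hs),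
      ac_nowhere hs⟩⟩, fun s c d hc hd h => fastGrowth_of_pow hc hd h⟩
  · have := hPv.1
    have h1 := porous_resonances h0 hp
    exact ⟨h1, fun s hs => (main s hs Pv hPv _ (by positivity) h1).1⟩
  · have := hPv.1
    exact atom2 (supp_ae hPv.2.1) h0 hr hgap hlam hs.1 hs.2

end Pool.Agent.Results.MP_be97d8_mp.ResonantLaws
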